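import Pool.Agent.helper86.OF.All

set_option autoImplicit false

/-!
# Edge count of critical graphs of odd order with large maximum degree (MP_c62920_co)

For every `ε > 0` the statement of the problem holds for all large `n` and all `r` with
`1 ≤ r ≤ (1 - ε) n`: every critical graph with `2n + 1` vertices and maximum degree `2n + 1 - r` has
exactly `(2n + 1).choose 2 - r n + 1` edges. The chromatic index is the chromatic number of the line
graph.
-/

namespace Pool.Agent.Results.MP_c62920_co.LargeCriticalGraphs

theorem result : ∀ ε : ℝ, 0 < ε → ∃ n₀ : ℕ, ∀ (V : Type) [Fintype V] [DecidableEq V]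
    (G : SimpleGraph V) [DecidableRel G.Adj] (n r : ℕ), n₀ ≤ n → 1 ≤ r →
    (r : ℝ) ≤ (1 - ε) * n → Fintype.card V = 2 * n + 1 → G.Connected →
    G.lineGraph.chromaticNumber = ((G.maxDegree + 1 : ℕ) : ℕ∞) →
    (∀ e ∈ G.edgeSet,
      (G.deleteEdges {e}).lineGraph.chromaticNumber < G.lineGraph.chromaticNumber) →
    G.maxDegree = 2 * n + 1 - r → G.edgeFinset.card = (2 * n + 1).choose 2 - r * n + 1 :=
  Pool.Agent.OF.t_FIN

end Pool.Agent.Results.MP_c62920_co.LargeCriticalGraphs
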